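import Pool.Agent.W192.HK.Parts

/-! Project HK, part CLS: the class group, representatives prime to `q`. -/

set_option autoImplicit false

namespace Pool.Agent.W571.HK

open Pool.Agent.W192.HK
open scoped nonZeroDivisors

theorem cop_rep {A : Type*} [CommRing A] [IsDedekindDomain A] (I q : Ideal A) (hI : I ≠ ⊥)
    (hq : q ≠ ⊥) :
    ∃ K : Ideal A, K ≠ ⊥ ∧ IsCoprime K q ∧ ∃ a : A, I * K = Ideal.span {a} := by
  by_cases hqt : q = ⊤
  · obtain ⟨a, haI, ha⟩ := Submodule.exists_mem_ne_zero_of_ne_bot hI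
    obtain ⟨K, hK⟩ := Ideal.dvd_span_singleton.2 haI
    refine ⟨K, ?_, ?_, a, hK.symm⟩
    · rintro rfl
      rw [Ideal.mul_bot, Ideal.span_singleton_eq_bot] at hK
      exact ha hK
    · rw [Ideal.isCoprime_iff_sup_eq, hqt, sup_top_eq]
  · have h1 : I * q ≤ I := Ideal.mul_le_left
    have h2 : I * q ≠ 0 := mul_ne_zero hI hq
    obtain ⟨a, ha⟩ := IsDedekindDomain.exists_sup_span_eq h1 h2
    have haI : a ∈ I := by
      rw [← ha]
      exact Ideal.mem_sup_right (Ideal.mem_span_singleton_self a)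
    obtain ⟨K, hK⟩ := Ideal.dvd_span_singleton.2 haI
    rw [hK, ← Ideal.mul_sup] at ha
    have h3 : q ⊔ K = ⊤ := by
      have h4 : I * (q ⊔ K) = I * ⊤ := by rw [ha, Ideal.mul_top]
      exact mul_left_cancel₀ hI h4
    refine ⟨K, ?_, ?_, a, hK.symm⟩
    · rintro rfl
      rw [sup_bot_eq] at h3
      exact hqt h3
    · rw [Ideal.isCoprime_iff_sup_eq, sup_comm, h3]

theorem om_mem {R : Subring ℂ} {ω : ℂ} (h : QR R ω) : ω ∈ R :=
  (h.mem ω).2 ⟨0, 1, by push_cast; ring⟩

/-- the map `(x, y) ↦ x + y ω` -/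
noncomputable def gmap {R : Subring ℂ} {ω : ℂ} (h : QR R ω) : (Fin 2 → ℤ) →ₗ[ℤ] R where
  toFun v := (v 0 : R) + (v 1 : R) * ⟨ω, om_mem h⟩
  map_add' v w := by
    simp only [Pi.add_apply, Int.cast_add]
    ring
  map_smul' c v := by
    simp only [Pi.smul_apply, smul_eq_mul, Int.cast_mul, RingHom.id_apply, zsmul_eq_mul]
    ring

theorem gmap_coe {R : Subring ℂ} {ω : ℂ} (h : QR R ω) (v : Fin 2 → ℤ) :
    ((gmap h v : R) : ℂ) = (v 0 : ℂ) + (v 1 : ℂ) * ω := by
  simp [gmap]

theorem gmap_bij {R : Subring ℂ} {ω : ℂ} (h : QR R ω) : Function.Bijective (gmap h) := by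
  constructor
  · rw [injective_iff_map_eq_zero]
    intro v hv
    have h1 : (v 0 : ℂ) + (v 1 : ℂ) * ω = 0 := by
      rw [← gmap_coe h, hv]
      rfl
    have h2 : (v 1 : ℝ) * ω.im = 0 := by
      have := congrArg Complex.im h1
      simpa using this
    have h3 : (v 1 : ℝ) = 0 := (mul_eq_zero.1 h2).resolve_right h.im.ne'
    have h4 : v 1 = 0 := by exact_mod_cast h3
    have h5 : (v 0 : ℂ) = 0 := by
      rw [h4] at h1
      simpa using h1
    have h6 : v 0 = 0 := by exact_mod_cast h5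
    funext i
    fin_cases i
    · exact h6
    · exact h4
  · intro z
    obtain ⟨x, y, hz⟩ := (h.mem z).1 z.2
    refine ⟨![x, y], Subtype.ext ?_⟩
    rw [gmap_coe, hz]
    simp

/-- the basis `1, ω` -/
noncomputable def bas {R : Subring ℂ} {ω : ℂ} (h : QR R ω) : Module.Basis (Fin 2) ℤ R :=
  Module.Basis.ofEquivFun (LinearEquiv.ofBijective (gmap h) (gmap_bij h)).symm

theorem fin_cls {R : Subring ℂ} {ω : ℂ} (h : QR R ω) : Finite (ClassGroup R) := by
  have := h.ded
  have : Module.Finite ℤ R := Module.Finite.of_basis (bas h)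
  have : Algebra.IsAlgebraic ℤ R := inferInstance
  let := ClassGroup.fintypeOfAdmissibleOfAlgebraic (bas h) AbsoluteValue.absIsAdmissible
  infer_instance

theorem h_cls (h1 : H_BASIC) : H_CLS := by
  classical
  intro R ω hR
  have := hR.ded
  obtain ⟨hfin, -⟩ := h1 R ω hR
  have := fin_cls hR
  let : Fintype (ClassGroup R) := Fintype.ofFinite _
  refine ⟨Fintype.card (ClassGroup R), Fintype.card_pos, ?_, ?_⟩
  · intro I
    by_cases hI : I = ⊥
    · refine ⟨0, ?_⟩
      rw [hI, sp, Ideal.span_singleton_eq_bot.2 rfl]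
      exact zero_pow Fintype.card_ne_zero
    · have h2 : ClassGroup.mk0 ⟨I, mem_nonZeroDivisors_iff_ne_zero.2 hI⟩ ^
          Fintype.card (ClassGroup R) = 1 := pow_card_eq_one
      rw [← map_pow, SubmonoidClass.mk_pow, ClassGroup.mk0_eq_one_iff] at h2
      obtain ⟨a, ha⟩ := h2
      exact ⟨a, ha⟩
  · intro q hq
    have key : ∀ C : ClassGroup R, ∃ b : Ideal R, ∃ hb : b ≠ ⊥, IsCoprime b q ∧
        ClassGroup.mk0 ⟨b, mem_nonZeroDivisors_iff_ne_zero.2 hb⟩ = C := by
      intro C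
      obtain ⟨⟨I, hI⟩, hIC⟩ := ClassGroup.mk0_surjective C⁻¹
      obtain ⟨K, hK, hKq, a, ha⟩ := cop_rep I q (nonZeroDivisors.ne_zero hI) hq
      refine ⟨K, hK, hKq, ?_⟩
      have h2 : ClassGroup.mk0 ⟨I, hI⟩ *
          ClassGroup.mk0 ⟨K, mem_nonZeroDivisors_iff_ne_zero.2 hK⟩ = 1 := by
        rw [← map_mul]
        exact (ClassGroup.mk0_eq_one_iff _).2 ⟨a, ha⟩
      rw [hIC] at h2
      exact (inv_mul_eq_one.1 h2).symm
    choose b hb hbq hbC using key
    have hprin : ∀ (I : Ideal R) (hI : I ≠ ⊥) (C : ClassGroup R),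
        (∃ α : R, I * b C = sp α) ↔
          ClassGroup.mk0 ⟨I, mem_nonZeroDivisors_iff_ne_zero.2 hI⟩ * C = 1 := by
      intro I hI C
      have h2 : ClassGroup.mk0 ⟨I, mem_nonZeroDivisors_iff_ne_zero.2 hI⟩ * C =
          ClassGroup.mk0 (⟨I, mem_nonZeroDivisors_iff_ne_zero.2 hI⟩ *
            ⟨b C, mem_nonZeroDivisors_iff_ne_zero.2 (hb C)⟩) := by
        rw [map_mul, hbC]
      rw [h2]
      constructor
      · rintro ⟨α, hα⟩
        exact (ClassGroup.mk0_eq_one_iff _).2 ⟨α, hα⟩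
      · intro h3
        obtain ⟨α, hα⟩ := (ClassGroup.mk0_eq_one_iff
          (I := I * b C) (mul_mem (mem_nonZeroDivisors_iff_ne_zero.2 hI)
            (mem_nonZeroDivisors_iff_ne_zero.2 (hb C)))).1 h3
        exact ⟨α, hα⟩
    have hinj : Function.Injective b := by
      intro C C' h
      rw [← hbC C, ← hbC C']
      congr 1
      exact Subtype.ext h
    have hcs : Cs (Finset.univ.image b) := by
      constructor
      · intro b' hb'
        obtain ⟨C, -, rfl⟩ := Finset.mem_image.1 hb'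
        exact hb C
      · intro I hI
        refine ⟨b (ClassGroup.mk0 ⟨I, mem_nonZeroDivisors_iff_ne_zero.2 hI⟩)⁻¹,
          ⟨Finset.mem_image_of_mem _ (Finset.mem_univ _), ?_⟩, ?_⟩
        · rw [hprin I hI, mul_inv_cancel]
        · rintro b' ⟨hb', hα⟩
          obtain ⟨C, -, rfl⟩ := Finset.mem_image.1 hb'
          rw [hprin I hI] at hα
          rw [eq_inv_of_mul_eq_one_right hα]
    have hcp : ∀ b' ∈ Finset.univ.image b, IsCoprime b' q := by
      intro b' hb'
      obtain ⟨C, -, rfl⟩ := Finset.mem_image.1 hb'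
      exact hbq C
    set P : Ideal R := ∏ b' ∈ Finset.univ.image b, b' with hP
    have hP0 : P ≠ ⊥ := Finset.prod_ne_zero_iff.2 fun b' hb' => hcs.ne b' hb'
    have hPq : IsCoprime P q := IsCoprime.prod_left hcp
    obtain ⟨b0, ⟨hb0, μ, hμ⟩, -⟩ := hcs.uni (q * P) (mul_ne_zero hq hP0)
    have hhq : IsCoprime (P * b0) q := IsCoprime.mul_left hPq (hcp b0 hb0)
    have := hfin q hq
    let : Fintype (R ⧸ q) := Fintype.ofFinite _
    have ht : ∀ x : R ⧸ q, ∃ a ∈ P * b0, Ideal.Quotient.mk q a = x := by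
      intro x
      obtain ⟨y, rfl⟩ := Ideal.Quotient.mk_surjective x
      have h2 : y ∈ P * b0 ⊔ q := by
        rw [Ideal.isCoprime_iff_sup_eq.1 hhq]
        exact Submodule.mem_top
      obtain ⟨a, ha, c, hc, hac⟩ := Submodule.mem_sup.1 h2
      refine ⟨a, ha, ?_⟩
      rw [Ideal.Quotient.eq, ← hac]
      have h3 : a - (a + c) = -c := by ring
      rw [h3]
      exact q.neg_mem hc
    choose t htm htx using ht
    refine ⟨Finset.univ.image b, P * b0, μ, Finset.univ.image t, ?_, ?_⟩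
    · rw [Finset.card_image_of_injective _ hinj, Finset.card_univ]
    · refine ⟨hcs, hcp, ?_, mul_ne_zero hP0 (hcs.ne b0 hb0), hhq, ?_, ?_⟩
      · intro b' hb'
        exact Dvd.dvd.mul_right (Finset.dvd_prod_of_mem (fun b => b) hb') b0
      · rw [← mul_assoc]
        exact hμ
      · constructor
        · intro x hx
          obtain ⟨y, -, rfl⟩ := Finset.mem_image.1 hx
          exact htm y
        · intro α
          refine ⟨t (Ideal.Quotient.mk q α), ⟨Finset.mem_image_of_mem _ (Finset.mem_univ _), ?_⟩,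
            ?_⟩
          · rw [← Ideal.Quotient.eq, htx]
          · rintro x ⟨hx, hxα⟩
            obtain ⟨y, -, rfl⟩ := Finset.mem_image.1 hx
            rw [← Ideal.Quotient.eq, htx] at hxα
            rw [hxα]

end Pool.Agent.W571.HK
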